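import Mathlib

/-!
# Comparison of polynomials with natural coefficients by Kronecker substitution

`L` and `R` are polynomial expressions without subtraction. The kernel evaluates both at `x_i = 2 ^ (k w_i)` and compares the digits:
if every digit of `L` is at least the digit of `R`, then `R ≤ L` for all nonnegative real arguments.
-/

namespace Pool.Agent.H43.K4

/-- polynomial expressions without subtraction -/
inductive Ex : Type
  | v (i : ℕ) : Ex
  | n (c : ℕ) : Ex
  | a (p q : Ex) : Ex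
  | m (p q : Ex) : Ex
  | w (p : Ex) (k : ℕ) : Ex

namespace Ex

instance : Add Ex := ⟨Ex.a⟩
instance : Mul Ex := ⟨Ex.m⟩
instance : HPow Ex ℕ Ex := ⟨Ex.w⟩
instance (c : ℕ) : OfNat Ex c := ⟨Ex.n c⟩

/-- the value in a semiring -/
def ev {S : Type*} [CommSemiring S] (x : ℕ → S) : Ex → S
  | v i => x i
  | n c => (c : S)
  | a p q => ev x p + ev x q
  | m p q => ev x p * ev x q
  | w p k => ev x p ^ k

/-- the value in the natural numbers, for the kernel -/
def evN (x : ℕ → ℕ) : Ex → ℕ
  | v i => x i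
  | n c => c
  | a p q => Nat.add (evN x p) (evN x q)
  | m p q => Nat.mul (evN x p) (evN x q)
  | w p k => Nat.pow (evN x p) k

theorem evN_eq (x : ℕ → ℕ) : ∀ e : Ex, evN x e = ev x e
  | v i => rfl
  | n c => by simp [evN, ev]
  | a p q => by
    have h1 := evN_eq x p
    have h2 := evN_eq x q
    simp only [evN, ev, ← h1, ← h2]
    rfl
  | m p q => by
    have h1 := evN_eq x p
    have h2 := evN_eq x q
    simp only [evN, ev, ← h1, ← h2]
    rfl
  | w p k => by
    have h1 := evN_eq x p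
    simp only [evN, ev, ← h1]
    rfl

@[simp] theorem ev_v {S : Type*} [CommSemiring S] (x : ℕ → S) (i : ℕ) : ev x (v i) = x i := rfl
@[simp] theorem ev_n {S : Type*} [CommSemiring S] (x : ℕ → S) (c : ℕ) : ev x (n c) = (c : S) := rfl
@[simp] theorem ev_lit {S : Type*} [CommSemiring S] (x : ℕ → S) (c : ℕ) : ev x (OfNat.ofNat c : Ex) = (c : S) := rfl
@[simp] theorem ev_add {S : Type*} [CommSemiring S] (x : ℕ → S) (p q : Ex) : ev x (p + q) = ev x p + ev x q := rfl
@[simp] theorem ev_mul {S : Type*} [CommSemiring S] (x : ℕ → S) (p q : Ex) : ev x (p * q) = ev x p * ev x q := rfl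
@[simp] theorem ev_pow {S : Type*} [CommSemiring S] (x : ℕ → S) (p : Ex) (k : ℕ) : ev x (p ^ k) = ev x p ^ k := rfl

/-- a bound for the degree in the variable `i` -/
def dg (i : ℕ) : Ex → ℕ
  | v j => bif Nat.beq i j then 1 else 0
  | n _ => 0
  | a p q => Nat.max (dg i p) (dg i q)
  | m p q => Nat.add (dg i p) (dg i q)
  | w p k => Nat.mul k (dg i p)

/-- all variables have an index below `n` -/
def vb (n : ℕ) : Ex → Bool
  | v j => Nat.blt j n
  | .n _ => true
  | a p q => vb n p && vb n q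
  | m p q => vb n p && vb n q
  | w p _ => vb n p

theorem dg_eq_zero {n i : ℕ} (hi : n ≤ i) : ∀ e : Ex, vb n e = true → dg i e = 0
  | v j, h => by
    have h1 : j < n := by simpa [vb, Nat.blt_eq] using h
    have h2 : Nat.beq i j = false := by
      rw [← Bool.not_eq_true, Nat.beq_eq]
      omega
    simp [dg, h2]
  | .n _, _ => rfl
  | a p q, h => by
    simp only [vb, Bool.and_eq_true] at h
    have h1 := dg_eq_zero hi p h.1
    have h2 := dg_eq_zero hi q h.2
    have e : dg i (a p q) = max (dg i p) (dg i q) := rfl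
    rw [e, h1, h2, max_self]
  | m p q, h => by
    simp only [vb, Bool.and_eq_true] at h
    have h1 := dg_eq_zero hi p h.1
    have h2 := dg_eq_zero hi q h.2
    have e : dg i (m p q) = dg i p + dg i q := rfl
    rw [e, h1, h2]
  | w p k, h => by
    simp only [vb] at h
    simp only [dg, dg_eq_zero hi p h]
    exact Nat.mul_zero k

/-- the polynomial -/
noncomputable def P (e : Ex) : MvPolynomial ℕ ℕ := ev MvPolynomial.X e

theorem eval_P {S : Type*} [CommSemiring S] (x : ℕ → S) : ∀ e : Ex, MvPolynomial.aeval x (P e) = ev x e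
  | v i => by simp [P]
  | n c => by simp [P]
  | a p q => by
    have h1 := eval_P x p
    have h2 := eval_P x q
    simp only [P, ev, map_add] at h1 h2 ⊢
    rw [h1, h2]
  | m p q => by
    have h1 := eval_P x p
    have h2 := eval_P x q
    simp only [P, ev, map_mul] at h1 h2 ⊢
    rw [h1, h2]
  | w p k => by
    have h1 := eval_P x p
    simp only [P, ev, map_pow] at h1 ⊢
    rw [h1]

theorem degreeOf_P (i : ℕ) : ∀ e : Ex, MvPolynomial.degreeOf i (P e) ≤ dg i e
  | v j => by
    simp only [P, ev, dg, MvPolynomial.degreeOf_X]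
    by_cases h : i = j
    · simp [h]
    · simp [h]
  | n c => by
    have : (P (n c)) = MvPolynomial.C c := by simp [P]
    rw [this, MvPolynomial.degreeOf_C]
    exact Nat.zero_le _
  | a p q => by
    have h1 := degreeOf_P i p
    have h2 := degreeOf_P i q
    have h3 := MvPolynomial.degreeOf_add_le i (P p) (P q)
    have e : P (a p q) = P p + P q := rfl
    rw [e]
    exact h3.trans (max_le_max h1 h2)
  | m p q => by
    have h1 := degreeOf_P i p
    have h2 := degreeOf_P i q
    have h3 := MvPolynomial.degreeOf_mul_le i (P p) (P q)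
    have e : P (m p q) = P p * P q := rfl
    rw [e]
    exact h3.trans (Nat.add_le_add h1 h2)
  | w p k => by
    have h1 := degreeOf_P i p
    have h3 := MvPolynomial.degreeOf_pow_le i (P p) k
    have e : P (w p k) = P p ^ k := rfl
    rw [e]
    exact h3.trans (Nat.mul_le_mul_left k h1)

end Ex

/-- the position of a monomial in mixed radix -/
def pos : List ℕ → (ℕ → ℕ) → ℕ
  | [], _ => 0
  | r :: rs, m => m 0 + r * pos rs (fun i => m (i + 1))

/-- the point of evaluation -/
def pt : ℕ → List ℕ → ℕ → ℕ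
  | _, [], _ => 1
  | B, _ :: _, 0 => B
  | B, r :: rs, i + 1 => pt (Nat.pow B r) rs i

theorem prod_pt : ∀ (rs : List ℕ) (B : ℕ) (m : ℕ → ℕ),
    ∏ i ∈ Finset.range rs.length, pt B rs i ^ m i = B ^ pos rs m
  | [], B, m => by simp [pos]
  | r :: rs, B, m => by
    have h := prod_pt rs (Nat.pow B r) (fun i => m (i + 1))
    rw [List.length_cons, Finset.prod_range_succ']
    have e : ∀ i, pt B (r :: rs) (i + 1) = pt (Nat.pow B r) rs i := fun i => rfl
    have e0 : pt B (r :: rs) 0 = B := rfl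
    simp only [e, e0, h, pos]
    have e2 : Nat.pow B r = B ^ r := rfl
    rw [e2, ← pow_mul, ← pow_add, Nat.add_comm]

theorem pos_lt : ∀ (rs : List ℕ) (m : ℕ → ℕ), (∀ i < rs.length, m i < rs.getD i 0) → pos rs m < rs.prod
  | [], m, _ => by simp [pos]
  | r :: rs, m, h => by
    have h0 : m 0 < r := by simpa using h 0 (by simp)
    have h1 := pos_lt rs (fun i => m (i + 1)) (fun i hi => by
      simpa using h (i + 1) (by simpa using hi))
    simp only [pos, List.prod_cons]
    calc m 0 + r * pos rs (fun i => m (i + 1)) < r + r * pos rs (fun i => m (i + 1)) := by omega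
      _ = r * (pos rs (fun i => m (i + 1)) + 1) := by ring
      _ ≤ r * rs.prod := Nat.mul_le_mul_left r h1

theorem pos_inj : ∀ (rs : List ℕ) (m m' : ℕ → ℕ), (∀ i < rs.length, m i < rs.getD i 0) →
    (∀ i < rs.length, m' i < rs.getD i 0) → pos rs m = pos rs m' → ∀ i < rs.length, m i = m' i
  | [], m, m', _, _, _, i, hi => by simp at hi
  | r :: rs, m, m', h, h', e, i, hi => by
    have h0 : m 0 < r := by simpa using h 0 (by simp)
    have h0' : m' 0 < r := by simpa using h' 0 (by simp)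
    simp only [pos] at e
    have e0 : m 0 = m' 0 := by
      have e1 := congrArg (· % r) e
      simpa [Nat.add_mul_mod_self_left, Nat.mod_eq_of_lt h0, Nat.mod_eq_of_lt h0'] using e1
    have hr : 0 < r := by omega
    have e1 : pos rs (fun i => m (i + 1)) = pos rs (fun i => m' (i + 1)) := by
      rw [e0] at e
      exact Nat.eq_of_mul_eq_mul_left hr (Nat.add_left_cancel e)
    cases i with
    | zero => exact e0
    | succ i =>
      exact pos_inj rs _ _ (fun i hi => by simpa using h (i + 1) (by simpa using hi))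
        (fun i hi => by simpa using h' (i + 1) (by simpa using hi)) e1 i (by simpa using hi)

/-- uniqueness of the digits -/
theorem digits_unique {B : ℕ} (hB : 0 < B) : ∀ (N : ℕ) (f g : ℕ → ℕ), (∀ j, f j < B) → (∀ j, g j < B) →
    ∑ j ∈ Finset.range N, f j * B ^ j = ∑ j ∈ Finset.range N, g j * B ^ j → ∀ j < N, f j = g j
  | 0, f, g, _, _, _, j, hj => by omega
  | N + 1, f, g, hf, hg, e, j, hj => by
    rw [Finset.sum_range_succ', Finset.sum_range_succ'] at e
    have e1 : ∀ h : ℕ → ℕ, ∑ k ∈ Finset.range N, h (k + 1) * B ^ (k + 1) + h 0 * B ^ 0 =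
        h 0 + B * ∑ k ∈ Finset.range N, h (k + 1) * B ^ k := by
      intro h
      rw [Finset.mul_sum, pow_zero, mul_one, add_comm]
      congr 1
      refine Finset.sum_congr rfl fun k _ => ?_
      ring
    rw [e1 f, e1 g] at e
    have e0 : f 0 = g 0 := by
      have e2 := congrArg (· % B) e
      simpa [Nat.add_mul_mod_self_left, Nat.mod_eq_of_lt (hf 0), Nat.mod_eq_of_lt (hg 0)] using e2
    cases j with
    | zero => exact e0
    | succ j =>
      refine digits_unique hB N (fun k => f (k + 1)) (fun k => g (k + 1)) (fun k => hf _) (fun k => hg _) ?_ j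
        (by omega)
      rw [e0] at e
      exact Nat.eq_of_mul_eq_mul_left hB (Nat.add_left_cancel e)

/-- the digits of `d` -/
theorem digits_sum {B : ℕ} : ∀ (N d : ℕ), d < B ^ N → ∑ j ∈ Finset.range N, d / B ^ j % B * B ^ j = d
  | 0, d, h => by
    have : d = 0 := by simpa using h
    simp [this]
  | N + 1, d, h => by
    rw [Finset.sum_range_succ']
    have hB : 0 < B := by
      rcases Nat.eq_zero_or_pos B with h0 | h0
      · rw [h0] at h
        simp at h
      · exact h0
    have h1 : d / B < B ^ N := by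
      rw [Nat.div_lt_iff_lt_mul hB]
      rwa [pow_succ] at h
    have h2 := digits_sum N (d / B) h1
    have e : ∀ j, d / B ^ (j + 1) % B * B ^ (j + 1) = B * (d / B / B ^ j % B * B ^ j) := by
      intro j
      rw [Nat.div_div_eq_div_mul, pow_succ, Nat.mul_comm B (B ^ j)]
      ring
    simp only [e, ← Finset.mul_sum, h2, pow_zero, Nat.div_one, mul_one]
    exact Nat.div_add_mod d B

/-- the exponents of `p` are in the box `rs` -/
def Box (rs : List ℕ) (p : MvPolynomial ℕ ℕ) : Prop :=
  ∀ m ∈ p.support, (∀ i < rs.length, m i < rs.getD i 0) ∧ ∀ i, rs.length ≤ i → m i = 0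

open Classical in
/-- the coefficient at a position -/
noncomputable def cf (rs : List ℕ) (p : MvPolynomial ℕ ℕ) (j : ℕ) : ℕ :=
  ∑ m ∈ p.support.filter (fun m : ℕ →₀ ℕ => pos rs m = j), p.coeff m

theorem eval_pt {rs : List ℕ} {p : MvPolynomial ℕ ℕ} (h : Box rs p) (B : ℕ) :
    MvPolynomial.eval (pt B rs) p = ∑ j ∈ Finset.range rs.prod, cf rs p j * B ^ j := by
  classical
  rw [MvPolynomial.eval_eq]
  have e : ∀ m ∈ p.support, p.coeff m * ∏ i ∈ m.support, pt B rs i ^ m i = p.coeff m * B ^ pos rs m := by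
    intro m hm
    congr 1
    rw [← prod_pt rs B m]
    refine Finset.prod_subset (fun i hi => ?_) (fun i _ hi => ?_)
    · rw [Finset.mem_range]
      by_contra hc
      exact (Finsupp.mem_support_iff.1 hi) ((h m hm).2 i (by omega))
    · rw [Finsupp.notMem_support_iff.1 hi, pow_zero]
  rw [Finset.sum_congr rfl e]
  have hmap : ∀ m ∈ p.support, pos rs m ∈ Finset.range rs.prod := fun m hm =>
    Finset.mem_range.2 (pos_lt rs m (h m hm).1)
  rw [← Finset.sum_fiberwise_of_maps_to hmap]
  refine Finset.sum_congr rfl fun j _ => ?_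
  unfold cf
  rw [Finset.sum_mul]
  refine Finset.sum_congr (by congr) fun m hm => ?_
  rw [(Finset.mem_filter.1 hm).2]

theorem cf_pos {rs : List ℕ} {p : MvPolynomial ℕ ℕ} (h : Box rs p) {m : ℕ →₀ ℕ}
    (hm : (∀ i < rs.length, m i < rs.getD i 0) ∧ ∀ i, rs.length ≤ i → m i = 0) : cf rs p (pos rs m) = p.coeff m := by
  classical
  unfold cf
  have hu : ∀ m' ∈ p.support, pos rs m' = pos rs m → m' = m := by
    intro m' hm' e
    ext i
    by_cases hi : i < rs.length
    · exact pos_inj rs m' m (h m' hm').1 hm.1 e i hi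
    · rw [(h m' hm').2 i (by omega), hm.2 i (by omega)]
  by_cases hc : m ∈ p.support
  · refine Finset.sum_eq_single_of_mem (s := p.support.filter (fun m' : ℕ →₀ ℕ => pos rs m' = pos rs m)) m
      (Finset.mem_filter.2 ⟨hc, rfl⟩) fun m' hm' hne => ?_
    exact absurd (hu m' (Finset.mem_filter.1 hm').1 (Finset.mem_filter.1 hm').2) hne
  · rw [MvPolynomial.notMem_support_iff.1 hc]
    refine Finset.sum_eq_zero fun m' hm' => ?_
    exact absurd (hu m' (Finset.mem_filter.1 hm').1 (Finset.mem_filter.1 hm').2 ▸ (Finset.mem_filter.1 hm').1) hc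

theorem cf_le (rs : List ℕ) (p : MvPolynomial ℕ ℕ) (j : ℕ) : cf rs p j ≤ MvPolynomial.eval (fun _ => 1) p := by
  classical
  unfold cf
  rw [MvPolynomial.eval_eq]
  simp only [one_pow, Finset.prod_const_one, mul_one]
  exact Finset.sum_le_sum_of_subset (Finset.filter_subset _ _)

/-- **comparison of the coefficients** -/
theorem coeff_le_of_digits {rs : List ℕ} {p q : MvPolynomial ℕ ℕ} (hp : Box rs p) (hq : Box rs q) {B M : ℕ}
    (hM : 2 * M ≤ B) (hp1 : MvPolynomial.eval (fun _ => 1) p < M) (hq1 : MvPolynomial.eval (fun _ => 1) q < M)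
    (hle : MvPolynomial.eval (pt B rs) q ≤ MvPolynomial.eval (pt B rs) p)
    (hd : ∀ j < rs.prod, (MvPolynomial.eval (pt B rs) p - MvPolynomial.eval (pt B rs) q) / B ^ j % B < M) :
    ∀ m ∈ q.support, q.coeff m ≤ p.coeff m := by
  classical
  have hB : 0 < B := by omega
  obtain ⟨d, hdd⟩ : ∃ d, d = MvPolynomial.eval (pt B rs) p - MvPolynomial.eval (pt B rs) q := ⟨_, rfl⟩
  rw [← hdd] at hd
  have hpd : MvPolynomial.eval (pt B rs) p = MvPolynomial.eval (pt B rs) q + d := by omega
  have hpl : MvPolynomial.eval (pt B rs) p < B ^ rs.prod := by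
    rw [eval_pt hp]
    have key : ∀ N, ∑ j ∈ Finset.range N, cf rs p j * B ^ j < B ^ N := by
      intro N
      induction N with
      | zero => simp
      | succ N ih =>
        rw [Finset.sum_range_succ, pow_succ]
        have h1 : cf rs p N + 1 ≤ B := by
          have := cf_le rs p N
          omega
        calc _ < B ^ N + cf rs p N * B ^ N := by omega
          _ = (cf rs p N + 1) * B ^ N := by ring
          _ ≤ B * B ^ N := Nat.mul_le_mul_right _ h1
          _ = B ^ N * B := Nat.mul_comm _ _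
    exact key _
  have hds := digits_sum (B := B) rs.prod d (by omega)
  have hun : ∀ j < rs.prod, cf rs p j = cf rs q j + d / B ^ j % B := by
    intro j hj
    have hgj : ∀ j, (if j < rs.prod then cf rs q j + d / B ^ j % B else 0) < B := by
      intro j
      by_cases hj : j < rs.prod
      · rw [if_pos hj]
        have := cf_le rs q j
        have := hd j hj
        omega
      · rw [if_neg hj]
        exact hB
    have h1 := digits_unique hB rs.prod (fun j => cf rs p j)
      (fun j => if j < rs.prod then cf rs q j + d / B ^ j % B else 0)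
      (fun j => by have := cf_le rs p j; omega) hgj (by
        rw [← eval_pt hp, hpd, eval_pt hq]
        conv_lhs => rw [← hds]
        rw [← Finset.sum_add_distrib]
        refine Finset.sum_congr rfl fun j hj => ?_
        rw [if_pos (Finset.mem_range.1 hj)]
        ring) j hj
    simpa [hj] using h1
  intro m hm
  have h1 := cf_pos hq (hq m hm)
  have h2 := cf_pos hp (hq m hm)
  rw [← h1, ← h2, hun _ (pos_lt rs m (hq m hm).1)]
  exact Nat.le_add_right _ _

theorem support_sub {p q : MvPolynomial ℕ ℕ} (hcc : ∀ m ∈ q.support, q.coeff m ≤ p.coeff m) :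
    q.support ⊆ p.support := by
  intro m hm
  have h1 := hcc m hm
  rw [MvPolynomial.mem_support_iff] at hm ⊢
  omega

/-- **comparison** -/
theorem le_of_coeff {p q : MvPolynomial ℕ ℕ} (hcc : ∀ m ∈ q.support, q.coeff m ≤ p.coeff m)
    (x : ℕ → ℝ) (hx : ∀ i, 0 ≤ x i) : MvPolynomial.aeval x q ≤ MvPolynomial.aeval x p := by
  classical
  rw [MvPolynomial.aeval_def, MvPolynomial.aeval_def, MvPolynomial.eval₂_eq, MvPolynomial.eval₂_eq]
  have hsub : q.support ⊆ p.support := support_sub hcc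
  calc ∑ m ∈ q.support, algebraMap ℕ ℝ (q.coeff m) * ∏ i ∈ m.support, x i ^ m i
      ≤ ∑ m ∈ q.support, algebraMap ℕ ℝ (p.coeff m) * ∏ i ∈ m.support, x i ^ m i := by
        refine Finset.sum_le_sum fun m hm => ?_
        refine mul_le_mul_of_nonneg_right ?_ (Finset.prod_nonneg fun i _ => pow_nonneg (hx i) _)
        simp only [eq_natCast]
        exact_mod_cast hcc m hm
    _ ≤ _ := by
        refine Finset.sum_le_sum_of_subset_of_nonneg hsub fun m _ _ => ?_
        refine mul_nonneg ?_ (Finset.prod_nonneg fun i _ => pow_nonneg (hx i) _)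
        simp only [eq_natCast]
        exact Nat.cast_nonneg _

/-- **strict comparison** -/
theorem lt_of_coeff {p q : MvPolynomial ℕ ℕ} (hcc : ∀ m ∈ q.support, q.coeff m ≤ p.coeff m)
    (x0 : ℕ → ℕ) (h0 : MvPolynomial.eval x0 q < MvPolynomial.eval x0 p)
    (x : ℕ → ℝ) (hx : ∀ i, 0 ≤ x i) (hx0 : ∀ i, 0 < x0 i → 0 < x i) :
    MvPolynomial.aeval x q < MvPolynomial.aeval x p := by
  classical
  have hsub : q.support ⊆ p.support := support_sub hcc
  have hle : ∀ m ∈ p.support, q.coeff m ≤ p.coeff m := by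
    intro m hm
    by_cases hq : m ∈ q.support
    · exact hcc m hq
    · rw [MvPolynomial.notMem_support_iff.1 hq]
      exact Nat.zero_le _
  have hq : ∀ (S : Type) [CommSemiring S] [Algebra ℕ S] (y : ℕ → S), MvPolynomial.aeval y q =
      ∑ m ∈ p.support, algebraMap ℕ S (q.coeff m) * ∏ i ∈ m.support, y i ^ m i := by
    intro S _ _ y
    rw [MvPolynomial.aeval_def, MvPolynomial.eval₂_eq]
    refine Finset.sum_subset hsub fun m _ hm => ?_
    rw [MvPolynomial.notMem_support_iff.1 hm, map_zero, zero_mul]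
  have h1 : ∃ m ∈ p.support, q.coeff m * ∏ i ∈ m.support, x0 i ^ m i < p.coeff m * ∏ i ∈ m.support, x0 i ^ m i := by
    by_contra hcon
    push Not at hcon
    refine absurd (Finset.sum_le_sum hcon) (not_le.2 ?_)
    have e1 := hq ℕ x0
    have e2 : MvPolynomial.eval x0 q = MvPolynomial.aeval x0 q := rfl
    have e3 : MvPolynomial.eval x0 p = ∑ m ∈ p.support, p.coeff m * ∏ i ∈ m.support, x0 i ^ m i :=
      MvPolynomial.eval_eq x0 p
    rw [← e3]
    have e4 : ∑ m ∈ p.support, q.coeff m * ∏ i ∈ m.support, x0 i ^ m i = MvPolynomial.eval x0 q := by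
      rw [e2, e1]
      rfl
    rw [e4]
    exact h0
  obtain ⟨m, hm, hlt⟩ := h1
  rw [hq ℝ x, MvPolynomial.aeval_def x p, MvPolynomial.eval₂_eq]
  refine Finset.sum_lt_sum (fun m hm => ?_) ⟨m, hm, ?_⟩
  · refine mul_le_mul_of_nonneg_right ?_ (Finset.prod_nonneg fun i _ => pow_nonneg (hx i) _)
    simp only [eq_natCast]
    exact_mod_cast hle m hm
  · have hpr : 0 < ∏ i ∈ m.support, x0 i ^ m i := by
      rcases Nat.eq_zero_or_pos (∏ i ∈ m.support, x0 i ^ m i) with hz | hz
      · rw [hz] at hlt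
        omega
      · exact hz
    have hco : q.coeff m < p.coeff m := lt_of_mul_lt_mul_right hlt hpr.le
    refine mul_lt_mul_of_pos_right ?_ (Finset.prod_pos fun i hi => pow_pos (hx0 i ?_) _)
    · simp only [eq_natCast]
      exact_mod_cast hco
    · rcases Nat.eq_zero_or_pos (x0 i) with hz | hz
      · have h3 : ∏ i ∈ m.support, x0 i ^ m i = 0 :=
          Finset.prod_eq_zero hi (by rw [hz, zero_pow (Finsupp.mem_support_iff.1 hi)])
        omega
      · exact hz

/-- the repunit mask: `N` digits `2 ^ (k - 1)` in base `2 ^ k` -/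
def mask (k N : ℕ) : ℕ := Nat.mul (Nat.pow 2 (Nat.sub k 1)) (Nat.div (Nat.sub (Nat.pow (Nat.pow 2 k) N) 1) (Nat.sub (Nat.pow 2 k) 1))

theorem mask_testBit {k N j : ℕ} (hk : 0 < k) (hj : j < N) : (mask k N).testBit (k * j + (k - 1)) = true := by
  obtain ⟨c, rfl⟩ : ∃ c, k = c + 1 := ⟨k - 1, by omega⟩
  have h1 : mask (c + 1) N = 2 ^ c * ∑ i ∈ Finset.range N, (2 ^ (c + 1)) ^ i := by
    have h2 : 2 ≤ 2 ^ (c + 1) := by
      have := Nat.pow_le_pow_right (show 0 < 2 by norm_num) (show 1 ≤ c + 1 by omega)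
      simpa using this
    rw [Nat.geomSum_eq h2]
    rfl
  rw [h1]
  obtain ⟨M, rfl⟩ : ∃ M, N = j + 1 + M := ⟨N - (j + 1), by omega⟩
  have h3 : 2 ^ c * ∑ i ∈ Finset.range (j + 1 + M), (2 ^ (c + 1)) ^ i =
      2 ^ ((c + 1) * j + c) * (1 + 2 * (2 ^ c * ∑ i ∈ Finset.range M, (2 ^ (c + 1)) ^ i)) +
        2 ^ c * ∑ i ∈ Finset.range j, (2 ^ (c + 1)) ^ i := by
    rw [Finset.sum_range_add, Finset.sum_range_succ]
    have e : ∀ i, (2 ^ (c + 1)) ^ (j + 1 + i) = 2 ^ ((c + 1) * j) * (2 * 2 ^ c) * (2 ^ (c + 1)) ^ i := by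
      intro i
      rw [pow_add, pow_add, pow_one, ← pow_mul, pow_succ 2 c]
      ring
    simp only [e, ← Finset.mul_sum]
    rw [pow_add 2 ((c + 1) * j) c, ← pow_mul 2 (c + 1) j]
    ring
  have h4 : 2 ^ c * ∑ i ∈ Finset.range j, (2 ^ (c + 1)) ^ i < 2 ^ ((c + 1) * j + c) := by
    rw [pow_add 2 ((c + 1) * j) c, Nat.mul_comm (2 ^ ((c + 1) * j))]
    refine Nat.mul_lt_mul_of_pos_left ?_ (by positivity)
    have h5 : ∀ j, ∑ i ∈ Finset.range j, (2 ^ (c + 1)) ^ i < 2 ^ ((c + 1) * j) := by
      intro j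
      rw [pow_mul]
      have h2 : 2 ≤ 2 ^ (c + 1) := by
        have := Nat.pow_le_pow_right (show 0 < 2 by norm_num) (show 1 ≤ c + 1 by omega)
        simpa using this
      induction j with
      | zero => simp
      | succ j ih =>
        rw [Finset.sum_range_succ, pow_succ (2 ^ (c + 1)) j]
        have : (2 ^ (c + 1)) ^ j * 2 ≤ (2 ^ (c + 1)) ^ j * 2 ^ (c + 1) := Nat.mul_le_mul_left _ h2
        omega
    exact h5 j
  rw [h3]
  have h6 : c + 1 - 1 = c := rfl
  rw [h6, Nat.testBit_eq_decide_div_mod_eq]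
  have h7 : (2 ^ ((c + 1) * j + c) * (1 + 2 * (2 ^ c * ∑ i ∈ Finset.range M, (2 ^ (c + 1)) ^ i)) +
        2 ^ c * ∑ i ∈ Finset.range j, (2 ^ (c + 1)) ^ i) / 2 ^ ((c + 1) * j + c) =
      1 + 2 * (2 ^ c * ∑ i ∈ Finset.range M, (2 ^ (c + 1)) ^ i) := by
    rw [Nat.mul_add_div (by positivity), Nat.div_eq_of_lt h4, Nat.add_zero]
  rw [h7]
  simp [Nat.add_mul_mod_self_left]

theorem digit_lt_of_land {k N d : ℕ} (hk : 0 < k) (h : Nat.land d (mask k N) = 0) {j : ℕ} (hj : j < N) :
    d / (2 ^ k) ^ j % 2 ^ k < 2 ^ (k - 1) := by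
  have h1 : (d &&& mask k N).testBit (k * j + (k - 1)) = false := by
    have : d &&& mask k N = 0 := h
    rw [this]
    exact Nat.zero_testBit _
  rw [Nat.testBit_and, mask_testBit hk hj, Bool.and_true] at h1
  refine Nat.lt_pow_two_of_testBit _ fun i hi => ?_
  rw [Nat.testBit_mod_two_pow]
  by_cases hik : i < k
  · have : i = k - 1 := by omega
    rw [this, ← pow_mul, Nat.testBit_div_two_pow, Nat.add_comm, h1, Bool.and_false]
  · simp [hik]

/-- the degrees of `e` are below the radices -/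
def boxOk (rs : List ℕ) (e : Ex) : Bool :=
  e.vb rs.length && (List.range rs.length).all fun i => Nat.blt (e.dg i) (rs.getD i 0)

theorem box_of_ok {rs : List ℕ} {e : Ex} (h : boxOk rs e = true) : Box rs e.P := by
  simp only [boxOk, Bool.and_eq_true, List.all_eq_true, List.mem_range, Nat.blt_eq] at h
  intro m hm
  have h1 : ∀ i, m i ≤ e.dg i := fun i =>
    (MvPolynomial.monomial_le_degreeOf i hm).trans (Ex.degreeOf_P i e)
  refine ⟨fun i hi => (h1 i).trans_lt (h.2 i hi), fun i hi => ?_⟩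
  have h2 := h1 i
  rw [Ex.dg_eq_zero hi e h.1] at h2
  omega

def chk1 (k N l r : ℕ) : Bool := Nat.ble r l && Nat.beq (Nat.land (Nat.sub l r) (mask k N)) 0

/-- **the check** `R ≤ L` coefficientwise -/
def chk (k : ℕ) (rs : List ℕ) (L R : Ex) : Bool :=
  Nat.blt 0 k && boxOk rs L && boxOk rs R && Nat.blt (L.evN fun _ => 1) (Nat.pow 2 (Nat.sub k 1)) &&
    Nat.blt (R.evN fun _ => 1) (Nat.pow 2 (Nat.sub k 1)) &&
    chk1 k rs.prod (L.evN (pt (Nat.pow 2 k) rs)) (R.evN (pt (Nat.pow 2 k) rs))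

theorem eval_P_nat (y : ℕ → ℕ) (e : Ex) : MvPolynomial.eval y e.P = e.evN y := by
  rw [Ex.evN_eq, ← Ex.eval_P y e]
  rfl

theorem coeff_le_of_chk {k : ℕ} {rs : List ℕ} {L R : Ex} (h : chk k rs L R = true) :
    ∀ m ∈ R.P.support, R.P.coeff m ≤ L.P.coeff m := by
  simp only [chk, chk1, Bool.and_eq_true, Nat.blt_eq, Nat.ble_eq, Nat.beq_eq] at h
  obtain ⟨⟨⟨⟨⟨hk, hL⟩, hR⟩, hL1⟩, hR1⟩, hle, hd⟩ := h
  have e1 := eval_P_nat
  have hp : (2 : ℕ) ^ k = Nat.pow 2 k := rfl
  refine coeff_le_of_digits (box_of_ok hL) (box_of_ok hR) (B := 2 ^ k) (M := 2 ^ (k - 1)) ?_ ?_ ?_ ?_ ?_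
  · obtain ⟨c, rfl⟩ : ∃ c, k = c + 1 := ⟨k - 1, by omega⟩
    rw [pow_succ, Nat.add_sub_cancel, Nat.mul_comm]
  · rw [e1]
    exact hL1
  · rw [e1]
    exact hR1
  · rw [e1, e1]
    exact hle
  · intro j hj
    rw [e1, e1]
    exact digit_lt_of_land hk hd hj

theorem le_of_chk {k : ℕ} {rs : List ℕ} {L R : Ex} (h : chk k rs L R = true) (x : ℕ → ℝ) (hx : ∀ i, 0 ≤ x i) :
    R.ev x ≤ L.ev x := by
  rw [← Ex.eval_P x L, ← Ex.eval_P x R]
  exact le_of_coeff (coeff_le_of_chk h) x hx

/-- strict version: `x0` is any point where the inequality is strict, the variables with `0 < x0 i` are positive -/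
theorem lt_of_chk {k : ℕ} {rs : List ℕ} {L R : Ex} (h : chk k rs L R = true) (x0 : ℕ → ℕ)
    (h0 : R.evN x0 < L.evN x0) (x : ℕ → ℝ) (hx : ∀ i, 0 ≤ x i) (hx0 : ∀ i, 0 < x0 i → 0 < x i) :
    R.ev x < L.ev x := by
  rw [← Ex.eval_P x L, ← Ex.eval_P x R]
  refine lt_of_coeff (coeff_le_of_chk h) x0 ?_ x hx hx0
  rw [eval_P_nat, eval_P_nat]
  exact h0

end Pool.Agent.H43.K4
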