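import Pool.Agent.H43.K4.Kron

/-!
# Inequalities between rational expressions with positive variables

`RE` are expressions built from variables, numerals, `+`, `*`, `/`, `^`. `RE.norm` clears the denominators (every divisor becomes a factor of a
common list), and `chkR` compares the numerators coefficientwise. The variables of the list `ps` are positive, the others are nonnegative.
-/

namespace Pool.Agent.H43.K4

namespace Ex

/-- product without trivial factors -/
def sm : Ex → Ex → Ex
  | .n 1, q => q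
  | p, .n 1 => p
  | p, q => m p q

theorem ev_sm {S : Type*} [CommSemiring S] (x : ℕ → S) (p q : Ex) : ev x (sm p q) = ev x p * ev x q := by
  unfold sm
  split
  · simp
  · simp
  · rfl

def beq : Ex → Ex → Bool
  | v i, v j => Nat.beq i j
  | .n c, .n d => Nat.beq c d
  | a p q, a p' q' => beq p p' && beq q q'
  | m p q, m p' q' => beq p p' && beq q q'
  | w p k, w p' k' => beq p p' && Nat.beq k k'
  | _, _ => false

theorem beq_eq : ∀ {p q : Ex}, beq p q = true → p = q
  | v i, v j, h => by rw [beq, Nat.beq_eq] at h; rw [h]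
  | .n c, .n d, h => by rw [beq, Nat.beq_eq] at h; rw [h]
  | a p q, a p' q', h => by
    rw [beq, Bool.and_eq_true] at h
    rw [beq_eq h.1, beq_eq h.2]
  | m p q, m p' q', h => by
    rw [beq, Bool.and_eq_true] at h
    rw [beq_eq h.1, beq_eq h.2]
  | w p k, w p' k', h => by
    rw [beq, Bool.and_eq_true, Nat.beq_eq] at h
    rw [beq_eq h.1, h.2]

/-- positive if the variables of `ps` are positive and the others are nonnegative -/
def psv (ps : List Bool) : Ex → Bool
  | v i => ps.getD i false
  | .n c => Nat.blt 0 c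
  | a p q => psv ps p || psv ps q
  | m p q => psv ps p && psv ps q
  | w p _ => psv ps p

theorem ev_nonneg {x : ℕ → ℝ} (hx : ∀ i, 0 ≤ x i) : ∀ e : Ex, 0 ≤ ev x e
  | v i => hx i
  | .n c => Nat.cast_nonneg c
  | a p q => add_nonneg (ev_nonneg hx p) (ev_nonneg hx q)
  | m p q => mul_nonneg (ev_nonneg hx p) (ev_nonneg hx q)
  | w p k => pow_nonneg (ev_nonneg hx p) k

theorem psv_pos {ps : List Bool} {x : ℕ → ℝ} (hx : ∀ i, 0 ≤ x i) (hp : ∀ i, ps.getD i false = true → 0 < x i) :
    ∀ e : Ex, psv ps e = true → 0 < ev x e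
  | v i, h => hp i h
  | .n c, h => by
    rw [psv, Nat.blt_eq] at h
    exact Nat.cast_pos.2 h
  | a p q, h => by
    rw [psv, Bool.or_eq_true] at h
    rcases h with h | h
    · exact add_pos_of_pos_of_nonneg (psv_pos hx hp p h) (ev_nonneg hx q)
    · exact add_pos_of_nonneg_of_pos (ev_nonneg hx p) (psv_pos hx hp q h)
  | m p q, h => by
    rw [psv, Bool.and_eq_true] at h
    exact mul_pos (psv_pos hx hp p h.1) (psv_pos hx hp q h.2)
  | w p k, h => by
    rw [psv] at h
    exact pow_pos (psv_pos hx hp p h) k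

end Ex

open Ex (sm ev_sm)

/-! ### exponents -/

def addl : List ℕ → List ℕ → List ℕ
  | [], b => b
  | x :: a, [] => x :: a
  | x :: a, y :: b => Nat.add x y :: addl a b

def subl : List ℕ → List ℕ → List ℕ
  | [], _ => []
  | x :: a, [] => x :: a
  | x :: a, y :: b => Nat.sub x y :: subl a b

def maxl : List ℕ → List ℕ → List ℕ
  | [], b => b
  | x :: a, [] => x :: a
  | x :: a, y :: b => Nat.max x y :: maxl a b

def unit : ℕ → List ℕ
  | 0 => [1]
  | j + 1 => 0 :: unit j

def smul (k : ℕ) : List ℕ → List ℕ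
  | [] => []
  | x :: a => Nat.mul k x :: smul k a

/-- the product of the factors -/
def pe : List Ex → List ℕ → Ex
  | f :: F, 0 :: e => pe F e
  | f :: F, 1 :: e => sm f (pe F e)
  | f :: F, k :: e => sm (.w f k) (pe F e)
  | _, _ => .n 1

noncomputable def pv (x : ℕ → ℝ) : List Ex → List ℕ → ℝ
  | f :: F, k :: e => f.ev x ^ k * pv x F e
  | _, _ => 1

theorem ev_pe (x : ℕ → ℝ) : ∀ (F : List Ex) (e : List ℕ), (pe F e).ev x = pv x F e
  | [], e => by simp [pe, pv]
  | f :: F, [] => by simp [pe, pv]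
  | f :: F, 0 :: e => by simp [pe, pv, ev_pe x F e]
  | f :: F, 1 :: e => by simp [pe, pv, ev_sm, ev_pe x F e]
  | f :: F, (k + 2) :: e => by simp [pe, pv, ev_sm, ev_pe x F e, Ex.ev]

theorem pv_pos {x : ℕ → ℝ} : ∀ {F : List Ex} (e : List ℕ), (∀ f ∈ F, 0 < f.ev x) → 0 < pv x F e
  | [], e, _ => by simp [pv]
  | _ :: _, [], _ => by simp [pv]
  | f :: F, k :: e, h => by
    simp only [pv]
    exact mul_pos (pow_pos (h f (by simp)) k) (pv_pos e fun g hg => h g (by simp [hg]))

theorem pv_nil (x : ℕ → ℝ) (F : List Ex) : pv x F [] = 1 := by cases F <;> rfl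

theorem pv_addl (x : ℕ → ℝ) : ∀ (F : List Ex) (a b : List ℕ), pv x F (addl a b) = pv x F a * pv x F b
  | F, [], b => by simp [addl, pv_nil]
  | F, k :: a, [] => by simp [addl, pv_nil]
  | [], k :: a, l :: b => by simp [pv]
  | f :: F, k :: a, l :: b => by
    have e : Nat.add k l = k + l := rfl
    simp only [addl, pv, pv_addl x F a b, e, pow_add]
    ring

theorem pv_subl (x : ℕ → ℝ) : ∀ (F : List Ex) (a b : List ℕ), pv x F b * pv x F (subl a b) = pv x F (maxl a b)
  | F, [], b => by simp [subl, maxl, pv_nil]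
  | F, k :: a, [] => by simp [subl, maxl, pv_nil]
  | [], k :: a, l :: b => by simp [pv]
  | f :: F, k :: a, l :: b => by
    have e : l + Nat.sub k l = Nat.max k l := by
      have e1 : Nat.sub k l = k - l := rfl
      have e2 : Nat.max k l = max k l := rfl
      rw [e1, e2]
      omega
    simp only [subl, maxl, pv, ← pv_subl x F a b, ← e, pow_add]
    ring

theorem maxl_comm : ∀ (a b : List ℕ), maxl a b = maxl b a
  | [], [] => rfl
  | [], _ :: _ => rfl
  | _ :: _, [] => rfl
  | k :: a, l :: b => by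
    have e1 : ∀ k l, Nat.max k l = max k l := fun _ _ => rfl
    simp only [maxl, maxl_comm a b, e1, max_comm]

theorem pv_smul (x : ℕ → ℝ) (k : ℕ) : ∀ (F : List Ex) (a : List ℕ), pv x F (smul k a) = pv x F a ^ k
  | F, [] => by simp [smul, pv_nil]
  | [], l :: a => by simp [pv]
  | f :: F, l :: a => by
    have e : Nat.mul k l = l * k := Nat.mul_comm k l
    simp only [smul, pv, pv_smul x k F a, e, pow_mul, mul_pow]

theorem pv_unit (x : ℕ → ℝ) : ∀ (F : List Ex) (j : ℕ) (f : Ex), F[j]? = some f → pv x F (unit j) = f.ev x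
  | [], j, f, h => by simp at h
  | g :: F, 0, f, h => by
    have : g = f := by simpa using h
    simp [unit, pv, pv_nil, this]
  | g :: F, j + 1, f, h => by
    simp only [unit, pv, pow_zero, one_mul]
    exact pv_unit x F j f (by simpa using h)

theorem pv_append (x : ℕ → ℝ) : ∀ (F G : List Ex) (e : List ℕ), e.length ≤ F.length → pv x (F ++ G) e = pv x F e
  | F, G, [], _ => by rw [pv_nil, pv_nil]
  | [], G, k :: e, h => by simp at h
  | f :: F, G, k :: e, h => by
    simp only [List.cons_append, pv, pv_append x F G e (by simpa using h)]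

theorem len_addl : ∀ (a b : List ℕ) (N : ℕ), a.length ≤ N → b.length ≤ N → (addl a b).length ≤ N
  | [], b, N, _, hb => hb
  | _ :: _, [], N, ha, _ => ha
  | _ :: a, _ :: b, N, ha, hb => by
    cases N with
    | zero => simp at ha
    | succ N =>
      simp only [addl, List.length_cons] at *
      have := len_addl a b N (by omega) (by omega)
      omega

theorem len_maxl : ∀ (a b : List ℕ) (N : ℕ), a.length ≤ N → b.length ≤ N → (maxl a b).length ≤ N
  | [], b, N, _, hb => hb
  | _ :: _, [], N, ha, _ => ha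
  | _ :: a, _ :: b, N, ha, hb => by
    cases N with
    | zero => simp at ha
    | succ N =>
      simp only [maxl, List.length_cons] at *
      have := len_maxl a b N (by omega) (by omega)
      omega

theorem len_subl : ∀ (a b : List ℕ) (N : ℕ), a.length ≤ N → (subl a b).length ≤ N
  | [], b, N, _ => by simp [subl]
  | _ :: _, [], N, ha => ha
  | _ :: a, _ :: b, N, ha => by
    cases N with
    | zero => simp at ha
    | succ N =>
      simp only [subl, List.length_cons] at *
      have := len_subl a b N (by omega)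
      omega

theorem len_smul (k : ℕ) : ∀ (a : List ℕ), (smul k a).length = a.length
  | [] => rfl
  | _ :: a => by simp [smul, len_smul k a]

theorem len_unit : ∀ j : ℕ, (unit j).length = j + 1
  | 0 => rfl
  | j + 1 => by simp [unit, len_unit j]

/-- rational expressions -/
inductive RE : Type
  | v (i : ℕ) : RE
  | n (c : ℕ) : RE
  | a (p q : RE) : RE
  | m (p q : RE) : RE
  | d (p q : RE) : RE
  | w (p : RE) (k : ℕ) : RE

namespace RE

instance : Add RE := ⟨RE.a⟩
instance : Mul RE := ⟨RE.m⟩
instance : Div RE := ⟨RE.d⟩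
instance : HPow RE ℕ RE := ⟨RE.w⟩
instance (c : ℕ) : OfNat RE c := ⟨RE.n c⟩

/-- the value -/
noncomputable def ev (x : ℕ → ℝ) : RE → ℝ
  | v i => x i
  | n c => (c : ℝ)
  | a p q => ev x p + ev x q
  | m p q => ev x p * ev x q
  | d p q => ev x p / ev x q
  | w p k => ev x p ^ k

@[simp] theorem ev_v (x : ℕ → ℝ) (i : ℕ) : ev x (v i) = x i := rfl
@[simp] theorem ev_n (x : ℕ → ℝ) (c : ℕ) : ev x (n c) = (c : ℝ) := rfl
@[simp] theorem ev_lit (x : ℕ → ℝ) (c : ℕ) : ev x (OfNat.ofNat c : RE) = (c : ℝ) := rfl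
@[simp] theorem ev_add (x : ℕ → ℝ) (p q : RE) : ev x (p + q) = ev x p + ev x q := rfl
@[simp] theorem ev_mul (x : ℕ → ℝ) (p q : RE) : ev x (p * q) = ev x p * ev x q := rfl
@[simp] theorem ev_div (x : ℕ → ℝ) (p q : RE) : ev x (p / q) = ev x p / ev x q := rfl
@[simp] theorem ev_pow (x : ℕ → ℝ) (p : RE) (k : ℕ) : ev x (p ^ k) = ev x p ^ k := rfl

/-- the index of a factor -/
def idx : List Ex → Ex → ℕ
  | [], _ => 0
  | f :: F, e => bif Ex.beq f e then 0 else Nat.succ (idx F e)

/-- the list with the factor -/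
def ins : List Ex → Ex → List Ex
  | [], e => [e]
  | f :: F, e => bif Ex.beq f e then f :: F else f :: ins F e

theorem ins_get : ∀ (F : List Ex) (e : Ex), (ins F e)[idx F e]? = some e
  | [], e => rfl
  | f :: F, e => by
    unfold idx ins
    cases h : Ex.beq f e with
    | true => simp [Ex.beq_eq h]
    | false => simpa using ins_get F e

theorem ins_app : ∀ (F : List Ex) (e : Ex), ∃ G, ins F e = F ++ G
  | [], e => ⟨[e], rfl⟩
  | f :: F, e => by
    unfold ins
    cases h : Ex.beq f e with
    | true => exact ⟨[], by simp⟩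
    | false =>
      obtain ⟨G, hG⟩ := ins_app F e
      exact ⟨G, by simp [hG]⟩

/-- the sum of two fractions with the factor list `F` -/
def addN (F : List Ex) (n1 : Ex) (e1 : List ℕ) (n2 : Ex) (e2 : List ℕ) : List Ex × Ex × List ℕ :=
  (F, .a (sm n1 (pe F (subl e2 e1))) (sm n2 (pe F (subl e1 e2))), maxl e1 e2)

def divN (F : List Ex) (n1 : Ex) (e1 : List ℕ) (e2 : List ℕ) (j : ℕ) : List Ex × Ex × List ℕ :=
  (F, sm n1 (pe F (subl e2 (addl e1 (unit j)))), subl (addl e1 (unit j)) e2)

def addS (r s : List Ex × Ex × List ℕ) : List Ex × Ex × List ℕ := addN s.1 r.2.1 r.2.2 s.2.1 s.2.2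

def mulS (r s : List Ex × Ex × List ℕ) : List Ex × Ex × List ℕ := (s.1, sm r.2.1 s.2.1, addl r.2.2 s.2.2)

def divS (r s : List Ex × Ex × List ℕ) : List Ex × Ex × List ℕ :=
  divN (ins s.1 s.2.1) r.2.1 r.2.2 s.2.2 (idx s.1 s.2.1)

def powS (r : List Ex × Ex × List ℕ) (k : ℕ) : List Ex × Ex × List ℕ := (r.1, .w r.2.1 k, smul k r.2.2)

/-- numerator and exponents of the denominator -/
def norm : RE → List Ex → List Ex × Ex × List ℕ
  | v i, F => (F, .v i, [])
  | n c, F => (F, .n c, [])
  | a p q, F => addS (norm p F) (norm q (norm p F).1)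
  | m p q, F => mulS (norm p F) (norm q (norm p F).1)
  | d p q, F => divS (norm p F) (norm q (norm p F).1)
  | w p k, F => powS (norm p F) k

theorem div_aux {A B PL PQ Q : ℝ} (h : PQ ≠ 0) (e : PL * (Q * PQ) * B = PQ * A) : A = PL * Q * B :=
  mul_left_cancel₀ h (by linear_combination -e)

/-- the invariant -/
def Good (x : ℕ → ℝ) (F : List Ex) (r : List Ex × Ex × List ℕ) (val : ℝ) : Prop :=
  (∃ G, r.1 = F ++ G) ∧ r.2.2.length ≤ r.1.length ∧ ((∀ f ∈ r.1, 0 < f.ev x) → val * pv x r.1 r.2.2 = r.2.1.ev x)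

theorem norm_good (x : ℕ → ℝ) : ∀ (e : RE) (F : List Ex), Good x F (norm e F) (ev x e)
  | v i, F => ⟨⟨[], by simp [norm]⟩, by simp [norm], fun _ => by simp [norm, pv_nil]⟩
  | n c, F => ⟨⟨[], by simp [norm]⟩, by simp [norm], fun _ => by simp [norm, pv_nil]⟩
  | a p q, F => by
    obtain ⟨⟨G1, h1⟩, h2, h3⟩ := norm_good x p F
    obtain ⟨⟨G2, h4⟩, h5, h6⟩ := norm_good x q (norm p F).1
    refine ⟨⟨G1 ++ G2, ?_⟩, ?_, fun hF => ?_⟩
    · simp only [norm, addS, addN]
      rw [h4, h1, List.append_assoc]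
    · simp only [norm, addS, addN]
      refine len_maxl _ _ _ ?_ h5
      rw [h4, List.length_append]
      omega
    · simp only [norm, addS, addN] at hF ⊢
      have h7 := h6 hF
      have h8 := h3 (fun f hf => hF f (by rw [h4]; exact List.mem_append_left _ hf))
      rw [← pv_append x _ G2 _ h2, ← h4] at h8
      have e1 := pv_subl x (norm q (norm p F).1).1 (norm q (norm p F).1).2.2 (norm p F).2.2
      have e2 := pv_subl x (norm q (norm p F).1).1 (norm p F).2.2 (norm q (norm p F).1).2.2
      rw [maxl_comm] at e1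
      simp only [Ex.ev, ev_sm, ev_pe, ev]
      rw [← h8, ← h7]
      linear_combination (-ev x p) * e1 - ev x q * e2
  | m p q, F => by
    obtain ⟨⟨G1, h1⟩, h2, h3⟩ := norm_good x p F
    obtain ⟨⟨G2, h4⟩, h5, h6⟩ := norm_good x q (norm p F).1
    refine ⟨⟨G1 ++ G2, ?_⟩, ?_, fun hF => ?_⟩
    · simp only [norm, mulS]
      rw [h4, h1, List.append_assoc]
    · simp only [norm, mulS]
      refine len_addl _ _ _ ?_ h5
      rw [h4, List.length_append]
      omega
    · simp only [norm, mulS] at hF ⊢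
      have h7 := h6 hF
      have h8 := h3 (fun f hf => hF f (by rw [h4]; exact List.mem_append_left _ hf))
      rw [← pv_append x _ G2 _ h2, ← h4] at h8
      simp only [ev_sm, pv_addl, ev]
      rw [← h8, ← h7]
      ring
  | d p q, F => by
    obtain ⟨⟨G1, h1⟩, h2, h3⟩ := norm_good x p F
    obtain ⟨⟨G2, h4⟩, h5, h6⟩ := norm_good x q (norm p F).1
    obtain ⟨G3, h9⟩ := ins_app (norm q (norm p F).1).1 (norm q (norm p F).1).2.1
    have h10 := ins_get (norm q (norm p F).1).1 (norm q (norm p F).1).2.1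
    refine ⟨⟨G1 ++ G2 ++ G3, ?_⟩, ?_, fun hF => ?_⟩
    · simp only [norm, divS, divN]
      rw [h9, h4, h1, List.append_assoc, List.append_assoc]
      simp only [List.append_assoc]
    · simp only [norm, divS, divN]
      refine len_subl _ _ _ (len_addl _ _ _ ?_ ?_)
      · rw [h9, List.length_append, h4, List.length_append]
        omega
      · rw [len_unit]
        have := (List.getElem?_eq_some_iff.1 h10).1
        omega
    · simp only [norm, divS, divN] at hF ⊢
      have h7 := h6 (fun f hf => hF f (by rw [h9]; exact List.mem_append_left _ hf))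
      have h8 := h3 (fun f hf => hF f (by rw [h9, h4, List.append_assoc]; exact List.mem_append_left _ hf))
      rw [← pv_append x _ G3 _ h5, ← h9] at h7
      rw [← pv_append x _ (G2 ++ G3) _ h2, ← List.append_assoc, ← h4, ← h9] at h8
      have h11 := pv_unit x _ _ _ h10
      have e1 := pv_subl x (ins (norm q (norm p F).1).1 (norm q (norm p F).1).2.1)
        (addl (norm p F).2.2 (unit (idx (norm q (norm p F).1).1 (norm q (norm p F).1).2.1))) (norm q (norm p F).1).2.2
      have e2 := pv_subl x (ins (norm q (norm p F).1).1 (norm q (norm p F).1).2.1) (norm q (norm p F).1).2.2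
        (addl (norm p F).2.2 (unit (idx (norm q (norm p F).1).1 (norm q (norm p F).1).2.1)))
      rw [maxl_comm, ← e1, pv_addl] at e2
      rw [h11] at e2
      simp only [ev_sm, ev_pe, ev]
      have hq0 : 0 < (norm q (norm p F).1).2.1.ev x := by
        refine hF _ (List.mem_of_getElem? h10)
      have hpv := pv_pos (x := x) (norm q (norm p F).1).2.2 hF
      have hqv : ev x q ≠ 0 := by
        intro h0
        rw [h0, zero_mul] at h7
        exact hq0.ne h7
      rw [div_mul_eq_mul_div, div_eq_iff hqv, ← h8]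
      rw [← h7] at e2
      have hc := div_aux hpv.ne' e2
      rw [hc]
      ring
  | w p k, F => by
    obtain ⟨h1, h2, h3⟩ := norm_good x p F
    refine ⟨?_, ?_, fun hF => ?_⟩
    · simpa only [norm, powS] using h1
    · simp only [norm, powS, len_smul]
      exact h2
    · simp only [norm, powS] at hF ⊢
      simp only [Ex.ev, ev, pv_smul, ← h3 hF, mul_pow]

end RE

/-- the point with ones for the positive variables -/
def x01 (ps : List Bool) : ℕ → ℕ := fun i => bif ps.getD i false then 1 else 0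

def chkR2 (k : ℕ) (rs : List ℕ) (ps : List Bool) (F : List Ex) (L R : Ex) : Bool :=
  F.all (Ex.psv ps) && chk k rs L R && Nat.blt (R.evN (x01 ps)) (L.evN (x01 ps))

def chkR1 (k : ℕ) (rs : List ℕ) (ps : List Bool) (r s : List Ex × Ex × List ℕ) : Bool :=
  chkR2 k rs ps s.1 (sm r.2.1 (pe s.1 (subl s.2.2 r.2.2))) (sm s.2.1 (pe s.1 (subl r.2.2 s.2.2)))

/-- **the check** `R < L` for rational expressions -/
def chkR (k : ℕ) (rs : List ℕ) (ps : List Bool) (L R : RE) : Bool :=
  chkR1 k rs ps (L.norm []) (R.norm (L.norm []).1)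

theorem lt_of_chkR {k : ℕ} {rs : List ℕ} {ps : List Bool} {L R : RE} (h : chkR k rs ps L R = true) (x : ℕ → ℝ)
    (hx : ∀ i, 0 ≤ x i) (hp : ∀ i, ps.getD i false = true → 0 < x i) : R.ev x < L.ev x := by
  simp only [chkR, chkR1, chkR2, Bool.and_eq_true, List.all_eq_true, Nat.blt_eq] at h
  obtain ⟨⟨hF, hc⟩, hlt⟩ := h
  obtain ⟨⟨G1, h1⟩, h2, h3⟩ := RE.norm_good x L []
  obtain ⟨⟨G2, h4⟩, h5, h6⟩ := RE.norm_good x R (L.norm []).1
  have hF' : ∀ f ∈ (R.norm (L.norm []).1).1, 0 < Ex.ev x f := fun f hf => Ex.psv_pos hx hp f (hF f hf)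
  have h7 := h6 hF'
  have h8 := h3 (fun f hf => hF' f (by rw [h4]; exact List.mem_append_left _ hf))
  rw [← pv_append x _ G2 _ h2, ← h4] at h8
  have h9 := lt_of_chk hc (x01 ps) hlt x hx (fun i hi => by
    refine hp i ?_
    unfold x01 at hi
    cases hb : ps.getD i false with
    | true => rfl
    | false =>
      rw [hb] at hi
      simp at hi)
  simp only [ev_sm, ev_pe, ← h7, ← h8] at h9
  have e1 := pv_subl x (R.norm (L.norm []).1).1 (R.norm (L.norm []).1).2.2 (L.norm []).2.2
  have e2 := pv_subl x (R.norm (L.norm []).1).1 (L.norm []).2.2 (R.norm (L.norm []).1).2.2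
  rw [maxl_comm] at e1
  have hM := pv_pos (x := x) (maxl (L.norm []).2.2 (R.norm (L.norm []).1).2.2) hF'
  rw [mul_assoc, mul_assoc, e1, e2] at h9
  exact lt_of_mul_lt_mul_right h9 hM.le

/-- data for the check: radices, bits, numbers of nodes -/
def Ex.size : Ex → ℕ
  | .v _ => 1
  | .n _ => 1
  | .a p q => p.size + q.size + 1
  | .m p q => p.size + q.size + 1
  | .w p _ => p.size + 1

def infoR (nv : ℕ) (L R : RE) : List ℕ × ℕ × ℕ × ℕ × ℕ :=
  let r := L.norm []
  let s := R.norm r.1
  let L' := sm r.2.1 (pe s.1 (subl s.2.2 r.2.2))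
  let R' := sm s.2.1 (pe s.1 (subl r.2.2 s.2.2))
  ((List.range nv).map fun i => max (L'.dg i) (R'.dg i) + 1,
    max (L'.evN fun _ => 1).log2 (R'.evN fun _ => 1).log2 + 2, L'.size, R'.size, s.1.length)

end Pool.Agent.H43.K4
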